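import Mathlib
import Pool.Agent.V11108.AvgShadow
import Pool.Agent.V11108.Diag2
import Pool.Agent.V11108.BlockShadow

/-!
# Average shadowing, full measure center: a single point or positive entropy
-/

set_option autoImplicit false
open Filter Topology MeasureTheory

namespace Pool.Agent.Results.MP_090ff9_an.PositiveEntropy

open Pool.Agent.V11108.AvgShadow Pool.Agent.V11108.BlockShadow

/-- The average shadowing property. -/
def ASP {X : Type} [MetricSpace X] (f : X → X) : Prop :=
  ∀ ε : ℝ, 0 < ε → ∃ δ : ℝ, 0 < δ ∧ ∀ x : ℕ → X,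
    (∃ N : ℕ, ∀ n ≥ N, ∀ k : ℕ,
      (∑ i ∈ Finset.range n, dist (f (x (i + k))) (x (i + k + 1))) / (n : ℝ) < δ) →
    ∃ y : X, limsup (fun n : ℕ => (∑ i ∈ Finset.range n, dist (f^[i] y) (x i)) / (n : ℝ)) atTop < ε

/-- The asymptotic average shadowing property. -/
def AASP {X : Type} [MetricSpace X] (f : X → X) : Prop :=
  ∀ x : ℕ → X,
    Tendsto (fun n : ℕ => (∑ i ∈ Finset.range n, dist (f (x i)) (x (i + 1))) / (n : ℝ)) atTop (𝓝 0) →
    ∃ y : X,
      Tendsto (fun n : ℕ => (∑ i ∈ Finset.range n, dist (f^[i] y) (x i)) / (n : ℝ)) atTop (𝓝 0)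

/-- `g` is a mistake function on `ℤ_{>0} × (0, ε₀]`, extended by `g n ε = g n ε₀` for `ε > ε₀`. -/
structure IsMistakeFunction (g : ℕ → ℝ → ℕ) (ε₀ : ℝ) : Prop where
  pos : 0 < ε₀
  mono : ∀ n ≥ 1, ∀ ε, 0 < ε → ε ≤ ε₀ → g n ε ≤ g (n + 1) ε
  lim : ∀ ε, 0 < ε → ε ≤ ε₀ → Tendsto (fun n : ℕ => (g n ε : ℝ) / n) atTop (𝓝 0)
  ext : ∀ n ε, ε₀ < ε → g n ε = g n ε₀

/-- `B_n(g; x, ε)`. -/
def mistakeBall {X : Type} [MetricSpace X] (f : X → X) (g : ℕ → ℝ → ℕ) (n : ℕ) (x : X) (ε : ℝ) :
    Set X :=
  {y | ∃ Λ ⊆ Finset.range n, n - g n ε ≤ Λ.card ∧ ∀ j ∈ Λ, dist (f^[j] x) (f^[j] y) < ε}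

/-- The almost specification property. -/
def AlmostSpecification {X : Type} [MetricSpace X] (f : X → X) : Prop :=
  ∃ (g : ℕ → ℝ → ℕ) (ε₀ : ℝ) (k : ℝ → ℕ), IsMistakeFunction g ε₀ ∧
    (∀ ε, 0 < ε → ∀ n ≥ k ε, g n ε < n) ∧
    ∀ m ≥ 1, ∀ (ε : ℕ → ℝ) (x : ℕ → X) (n : ℕ → ℕ), (∀ j < m, 0 < ε j ∧ k (ε j) ≤ n j) →
      ∃ z : X, ∀ j < m, f^[∑ i ∈ Finset.range j, n i] z ∈ mistakeBall f g (n j) (x j) (ε j)

/-- The measure center of `f` is all of `X`: every nonempty open set has positive measure for some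
invariant Borel probability measure. -/
def FullMeasureCenter {X : Type} [MetricSpace X] [MeasurableSpace X] (f : X → X) : Prop :=
  ∀ U : Set X, IsOpen U → U.Nonempty →
    ∃ μ : Measure X, IsProbabilityMeasure μ ∧ MeasurePreserving f μ μ ∧ μ U ≠ 0

/-- Topological mixing. -/
def TopologicallyMixing {X : Type} [MetricSpace X] (f : X → X) : Prop :=
  ∀ U V : Set X, IsOpen U → IsOpen V → U.Nonempty → V.Nonempty →
    ∃ N : ℕ, ∀ n ≥ N, (f^[n] '' U ∩ V).Nonempty

/-! ### Finite block shadowing -/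

theorem blk_periodic {X : Type} (f : X → X) (p : ℕ → X) (n m r i : ℕ) (hn : 1 ≤ n)
    (hi : i < n * m) : blk f (fun j => p (j % m)) n (n * m * r + i) = blk f p n i := by
  unfold blk
  have h1 : (n * m * r + i) % n = i % n := by rw [mul_assoc, Nat.mul_add_mod]
  have h2 : (n * m * r + i) / n = m * r + i / n := by
    rw [mul_assoc, Nat.mul_add_div (by omega)]
  have h3 : i / n < m := Nat.div_lt_of_lt_mul hi
  rw [h1, h2]
  show f^[i % n] (p ((m * r + i / n) % m)) = _
  rw [Nat.mul_add_mod, Nat.mod_eq_of_lt h3]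

theorem iter_add {X : Type} (f : X → X) (a b : ℕ) (y : X) : f^[a + b] y = f^[b] (f^[a] y) := by
  rw [add_comm, Function.iterate_add_apply]

theorem fbs_of_spec {X : Type} [MetricSpace X] [CompactSpace X] (f : X → X)
    (h : AlmostSpecification f) : FBS f := by
  intro ε hε
  obtain ⟨g, ε₀, k, hg, hk, hspec⟩ := h
  obtain ⟨D, hD1, hD⟩ := exists_bound X
  have hε₀ := hg.pos
  set e := min (ε / 2) ε₀ with he
  have he0 : 0 < e := lt_min (by positivity) hε₀
  have hlim := (tendsto_order.mp (hg.lim e he0 (min_le_right _ _))).2 (ε / (2 * D)) (by positivity)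
  obtain ⟨n, hn1, hn2, hn3⟩ := (hlim.and ((eventually_ge_atTop (k e)).and
    (eventually_ge_atTop 1))).exists
  refine ⟨n, hn3, fun m p => ?_⟩
  have hn0 : (0:ℝ) < n := by exact_mod_cast hn3
  rcases Nat.eq_zero_or_pos m with hm | hm
  · refine ⟨p 0, ?_⟩
    subst hm
    simp
  · obtain ⟨z, hz⟩ := hspec m hm (fun _ => e) p (fun _ => n) (fun j _ => ⟨he0, hn2⟩)
    refine ⟨z, ?_⟩
    rw [sum_blocks]
    have hgn : D * (g n e : ℝ) ≤ ε / 2 * n := by
      rw [div_lt_iff₀ hn0] at hn1
      have : D * (g n e : ℝ) ≤ D * (ε / (2 * D) * n) :=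
        mul_le_mul_of_nonneg_left hn1.le (by linarith)
      refine this.trans (le_of_eq ?_)
      field_simp
    calc _ ≤ ∑ j ∈ Finset.range m, ε * n := by
          apply Finset.sum_le_sum
          intro j hj
          obtain ⟨Λ, hΛ, hcard, hΛd⟩ := hz j (Finset.mem_range.mp hj)
          simp only [Finset.sum_const, Finset.card_range, smul_eq_mul] at hΛd
          have hr : ∀ r ∈ Finset.range n, dist (f^[n * j + r] z) (blk f p n (n * j + r)) =
              dist (f^[r] (f^[j * n] z)) (f^[r] (p j)) := by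
            intro r hr
            rw [blk_add f p n j r hn3 (Finset.mem_range.mp hr), iter_add, mul_comm n j]
          rw [Finset.sum_congr rfl hr, ← Finset.sum_sdiff hΛ]
          have s1 : ∑ r ∈ Λ, dist (f^[r] (f^[j * n] z)) (f^[r] (p j)) ≤ e * n := by
            calc _ ≤ ∑ r ∈ Λ, e := by
                  apply Finset.sum_le_sum
                  intro r hr
                  rw [dist_comm]
                  exact (hΛd r hr).le
              _ = e * Λ.card := by simp [mul_comm]
              _ ≤ e * n := by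
                  have : Λ.card ≤ n := by simpa using Finset.card_le_card hΛ
                  gcongr
          have s2 : ∑ r ∈ Finset.range n \ Λ, dist (f^[r] (f^[j * n] z)) (f^[r] (p j)) ≤
              D * g n e := by
            calc _ ≤ ∑ r ∈ Finset.range n \ Λ, D := Finset.sum_le_sum (fun r _ => hD _ _)
              _ = D * ((Finset.range n \ Λ).card : ℝ) := by simp [mul_comm]
              _ ≤ D * g n e := by
                  have : (Finset.range n \ Λ).card ≤ g n e := by
                    rw [Finset.card_sdiff_of_subset hΛ, Finset.card_range]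
                    omega
                  have h' : (((Finset.range n \ Λ).card : ℕ) : ℝ) ≤ g n e := by exact_mod_cast this
                  exact mul_le_mul_of_nonneg_left h' (by linarith)
          have s3 : e * n ≤ ε / 2 * n := by
            have := min_le_left (ε / 2) ε₀
            gcongr
          linarith
      _ = ε * (n * m : ℕ) := by simp; ring

theorem fbs_of_asp {X : Type} [MetricSpace X] [CompactSpace X] (f : X → X)
    (h : ASP f) : FBS f := by
  intro ε hε
  by_contra hcon
  push Not at hcon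
  obtain ⟨D, hD1, hD⟩ := exists_bound X
  obtain ⟨δ, hδ, hasp⟩ := h (ε / 2) (by positivity)
  obtain ⟨n, hL⟩ := exists_nat_gt (2 * D / δ)
  have hDδ : 0 < 2 * D / δ := by positivity
  have hn0 : (0:ℝ) < n := hDδ.trans hL
  have hn1 : 1 ≤ n := by exact_mod_cast hn0
  obtain ⟨m, p, hbad⟩ := hcon n hn1
  have hm1 : 1 ≤ m := by
    rcases Nat.eq_zero_or_pos m with hm | hm
    · exfalso
      subst hm
      have := hbad (p 0)
      simp at this
    · exact hm
  set a : ℕ → X := fun j => p (j % m) with ha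
  obtain ⟨y, hy⟩ := hasp (blk f a n) (by
    refine ⟨n + 1, ?_⟩
    intro N hN k
    have hN0 : (0:ℝ) < N := by
      have : 0 < N := by omega
      exact_mod_cast this
    have hLn : (n:ℝ) < N := by exact_mod_cast (by omega : n < N)
    rw [div_lt_iff₀ hN0]
    have h1 : ∑ i ∈ Finset.range N, dist (f (blk f a n (i + k))) (blk f a n (i + k + 1))
        ≤ D * (N / n + 1) := by
      calc _ ≤ ∑ i ∈ Finset.range N, D * (if n ∣ i + k + 1 then (1:ℝ) else 0) :=
            Finset.sum_le_sum (fun i _ => blk_jump f a n (i + k) D hD)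
        _ = D * ∑ i ∈ Finset.range N, (if n ∣ i + k + 1 then (1:ℝ) else 0) := by
            rw [Finset.mul_sum]
        _ ≤ _ := by
            gcongr
            exact count_mult_le n k N hn1
    have h2 : 2 * D < δ * n := by
      rw [div_lt_iff₀ hδ] at hL
      linarith
    have h3 : (1:ℝ) ≤ N / n := by rw [le_div_iff₀ hn0]; linarith
    have h4 : D * (N / n + 1) ≤ 2 * D * (N / n) := by nlinarith
    have h5 : 2 * D * (N / n) < δ * N := by
      calc 2 * D * ((N:ℝ) / n) < (δ * n) * (N / n) := by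
            apply mul_lt_mul_of_pos_right h2
            positivity
        _ = δ * N := by field_simp
    linarith)
  have hbd : IsBoundedUnder (· ≤ ·) atTop
      (fun N : ℕ => (∑ i ∈ Finset.range N, dist (f^[i] y) (blk f a n i)) / (N : ℝ)) := by
    refine isBoundedUnder_of ⟨D, fun N => ?_⟩
    rcases Nat.eq_zero_or_pos N with h | h
    · subst h; simp; linarith
    · have hN : (0:ℝ) < N := by exact_mod_cast h
      rw [div_le_iff₀ hN]
      calc _ ≤ ∑ i ∈ Finset.range N, D := Finset.sum_le_sum (fun i _ => hD _ _)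
        _ = D * N := by simp [mul_comm]
  have hev := eventually_lt_of_limsup_lt hy hbd
  obtain ⟨N, hN⟩ := eventually_atTop.mp hev
  have hnm : 1 ≤ n * m := Nat.mul_pos hn1 hm1
  have h1 := hN (n * m * (N + 1)) (by nlinarith)
  have hpos : (0:ℝ) < ((n * m * (N + 1) : ℕ) : ℝ) := by
    have : 0 < n * m * (N + 1) := by positivity
    exact_mod_cast this
  rw [div_lt_iff₀ hpos, sum_blocks] at h1
  have h2 : ∑ r ∈ Finset.range (N + 1), ε * (n * m : ℕ) ≤
      ∑ r ∈ Finset.range (N + 1), ∑ i ∈ Finset.range (n * m),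
        dist (f^[n * m * r + i] y) (blk f a n (n * m * r + i)) := by
    apply Finset.sum_le_sum
    intro r _
    have := hbad (f^[n * m * r] y)
    refine this.le.trans (le_of_eq ?_)
    apply Finset.sum_congr rfl
    intro i hi
    rw [iter_add, ha, blk_periodic f p n m r i hn1 (Finset.mem_range.mp hi)]
  simp only [Finset.sum_const, Finset.card_range, nsmul_eq_mul] at h2
  have h3 : ((n * m * (N + 1) : ℕ) : ℝ) = ((N + 1 : ℕ) : ℝ) * ((n * m : ℕ) : ℝ) := by
    push_cast; ring
  rw [h3] at h1 hpos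
  nlinarith

theorem fbs_of_aasp {X : Type} [MetricSpace X] [CompactSpace X] (f : X → X)
    (h : AASP f) : FBS f := by
  intro ε hε
  by_contra hcon
  push Not at hcon
  obtain ⟨D, hD1, hD⟩ := exists_bound X
  have hD0 : 0 < D := by linarith
  choose m p hbad using fun k : ℕ => hcon (k + 1) (by omega)
  have hm1 : ∀ k, 1 ≤ m k := by
    intro k
    rcases Nat.eq_zero_or_pos (m k) with hm | hm
    · exfalso
      have := hbad k (p k 0)
      rw [hm] at this
      simp at this
    · exact hm
  set L : ℕ → ℕ := fun k => (k + 1) * m k with hL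
  have hL1 : ∀ k, 1 ≤ L k := fun k => Nat.mul_pos (by omega) (hm1 k)
  set a : ℕ → ℕ → X := fun k j => p k (j % m k) with ha
  set b : ℕ → ℕ → ℝ := fun k i => D * (if (k + 1) ∣ i + 1 then (1:ℝ) else 0) with hb
  have hb0 : ∀ k i, 0 ≤ b k i := by
    intro k i
    simp only [hb]
    split_ifs <;> positivity
  have hbC : ∀ k i, b k i ≤ D := by
    intro k i
    simp only [hb]
    split_ifs <;> linarith
  have he : Tendsto (fun k : ℕ => (2 * D) / ((k:ℝ) + 1)) atTop (𝓝 0) := by
    have : Tendsto (fun k : ℕ => ((k : ℝ) + 1)) atTop atTop :=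
      tendsto_atTop_add_const_right _ _ tendsto_natCast_atTop_atTop
    exact this.const_div_atTop _
  have hsum : ∀ k, ∀ᶠ n : ℕ in atTop, ∑ i ∈ Finset.range n, b k i ≤
      ((2 * D) / ((k:ℝ) + 1)) * n := by
    intro k
    have hk : (0:ℝ) < (k:ℝ) + 1 := by positivity
    filter_upwards [eventually_gt_atTop (k + 1)] with n h2
    have hkn : (k:ℝ) + 1 ≤ n := by exact_mod_cast h2.le
    simp only [hb]
    rw [← Finset.mul_sum]
    have c1 := count_mult_le (k + 1) 0 n (by omega)
    simp only [add_zero] at c1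
    push_cast at c1
    have c5 : (1:ℝ) ≤ n / ((k:ℝ) + 1) := by rw [le_div_iff₀ hk]; linarith
    have c6 : D * (∑ i ∈ Finset.range n, (if (k + 1) ∣ i + 1 then (1:ℝ) else 0)) ≤
        D * (2 * (n / ((k:ℝ) + 1))) := by
      apply mul_le_mul_of_nonneg_left _ hD0.le
      linarith
    refine c6.trans (le_of_eq ?_)
    field_simp
  obtain ⟨t, κ, htm, htG, hκeq, hκmono, hκ1, hκ2⟩ := Pool.Agent.V11108.Diag2.diag
    (fun j tj => 8 * (tj + L j)) b D hD0 hb0 hbC _ he hsum
  set x : ℕ → X := fun i => blk f (a (κ i)) (κ i + 1) i with hx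
  have hjump : ∀ i, dist (f (x i)) (x (i + 1)) ≤ b (κ i) i + D * ((κ (i + 1) : ℝ) - κ i) := by
    intro i
    rcases Nat.eq_or_lt_of_le (hκmono (Nat.le_succ i)) with h | h
    · have h1 := blk_jump f (a (κ i)) (κ i + 1) i D hD
      have h2 : x (i + 1) = blk f (a (κ i)) (κ i + 1) (i + 1) := by
        simp only [hx]
        rw [show κ (i + 1) = κ i from h.symm]
      rw [h2]
      have h3 : ((κ (i + 1) : ℝ) - κ i) = 0 := by
        rw [show κ (i + 1) = κ i from h.symm]; ring
      rw [h3, mul_zero, add_zero]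
      exact h1
    · have h1 : (1:ℝ) ≤ (κ (i + 1) : ℝ) - κ i := by
        have : (κ i : ℝ) + 1 ≤ κ (i + 1) := by exact_mod_cast h
        linarith
      have h2 := hD (f (x i)) (x (i + 1))
      have h3 := hb0 (κ i) i
      nlinarith
  obtain ⟨y, hy⟩ := h x (by
    have hlim : Tendsto (fun n : ℕ => (∑ i ∈ Finset.range n, b (κ i) i) / (n : ℝ)
        + D * ((κ n : ℝ) / n)) atTop (𝓝 0) := by
      have := hκ1.add (hκ2.const_mul D)
      simpa using this
    refine squeeze_zero (fun n => by positivity) (fun n => ?_) hlim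
    have h1 : ∑ i ∈ Finset.range n, dist (f (x i)) (x (i + 1)) ≤
        ∑ i ∈ Finset.range n, b (κ i) i + D * κ n := by
      calc _ ≤ ∑ i ∈ Finset.range n, (b (κ i) i + D * ((κ (i + 1) : ℝ) - κ i)) :=
            Finset.sum_le_sum (fun i _ => hjump i)
        _ = ∑ i ∈ Finset.range n, b (κ i) i + D * ((κ n : ℝ) - κ 0) := by
            have e1 : ∑ i ∈ Finset.range n, D * ((κ (i + 1) : ℝ) - κ i) = D * ((κ n : ℝ) - κ 0) := by
              rw [← Finset.mul_sum, Finset.sum_range_sub (fun i => (κ i : ℝ)) n]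
            rw [Finset.sum_add_distrib, e1]
        _ ≤ _ := by
            have : (0:ℝ) ≤ κ 0 := Nat.cast_nonneg _
            nlinarith
    calc _ ≤ (∑ i ∈ Finset.range n, b (κ i) i + D * κ n) / n :=
          div_le_div_of_nonneg_right h1 (Nat.cast_nonneg n)
      _ = _ := by rw [add_div, mul_div_assoc])
  -- the contradiction at the times `t (k + 1)`
  have hev := (tendsto_order.mp hy).2 (ε / 2) (by positivity)
  obtain ⟨N, hN⟩ := eventually_atTop.mp hev
  obtain ⟨k, hk⟩ : ∃ k, N ≤ t (k + 1) := ⟨N, (htm.id_le N).trans (htm.monotone (Nat.le_succ N))⟩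
  have h1 := hN (t (k + 1)) hk
  have htk := htG k
  have hLk := hL1 k
  have htpos : (0:ℝ) < (t (k + 1) : ℕ) := by
    have : 0 < t (k + 1) := by omega
    exact_mod_cast this
  rw [div_lt_iff₀ htpos] at h1
  set r0 := t k / L k + 1 with hr0
  set r1 := t (k + 1) / L k with hr1
  have a0 : t k ≤ L k * r0 := by
    rw [hr0]
    have := Nat.lt_mul_div_succ (t k) (by omega : 0 < L k)
    exact this.le
  have a0' : L k * r0 ≤ t k + L k := by
    rw [hr0, Nat.mul_add, mul_one]
    have := Nat.mul_div_le (t k) (L k)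
    omega
  have a1 : L k * r1 ≤ t (k + 1) := Nat.mul_div_le _ _
  have a1' : t (k + 1) < L k * r1 + L k := by
    have := Nat.lt_mul_div_succ (t (k + 1)) (by omega : 0 < L k)
    rw [hr1]
    rw [Nat.mul_add, mul_one] at this
    exact this
  have hr01 : r0 ≤ r1 := by
    have : L k * r0 ≤ L k * r1 := by omega
    exact Nat.le_of_mul_le_mul_left this (by omega)
  have h2 : ∑ i ∈ Finset.Ico (L k * r0) (L k * r1), dist (f^[i] y) (x i) ≤
      ∑ i ∈ Finset.range (t (k + 1)), dist (f^[i] y) (x i) := by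
    apply Finset.sum_le_sum_of_subset_of_nonneg
    · intro i hi
      rw [Finset.mem_Ico] at hi
      exact Finset.mem_range.mpr (by omega)
    · intro _ _ _; exact dist_nonneg
  have h3 : ∑ i ∈ Finset.Ico (L k * r0) (L k * r1), dist (f^[i] y) (x i) =
      ∑ r ∈ Finset.Ico r0 r1, ∑ i ∈ Finset.range (L k), dist (f^[L k * r + i] y) (x (L k * r + i)) := by
    rw [Finset.sum_Ico_eq_sub _ (Nat.mul_le_mul_left _ hr01), sum_blocks, sum_blocks,
      Finset.sum_Ico_eq_sub _ hr01]
  have h4 : ∑ r ∈ Finset.Ico r0 r1, ε * (L k : ℕ) ≤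
      ∑ r ∈ Finset.Ico r0 r1, ∑ i ∈ Finset.range (L k),
        dist (f^[L k * r + i] y) (x (L k * r + i)) := by
    apply Finset.sum_le_sum
    intro r hr
    rw [Finset.mem_Ico] at hr
    have := hbad k (f^[L k * r] y)
    refine this.le.trans (le_of_eq ?_)
    apply Finset.sum_congr rfl
    intro i hi
    rw [Finset.mem_range] at hi
    have hlow : t k ≤ L k * r + i := by
      have : L k * r0 ≤ L k * r := Nat.mul_le_mul_left _ hr.1
      omega
    have hhigh : L k * r + i < t (k + 1) := by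
      have : L k * (r + 1) ≤ L k * r1 := Nat.mul_le_mul_left _ hr.2
      rw [Nat.mul_add, mul_one] at this
      have hi' : i < L k := hi
      omega
    have hκ := hκeq _ k hlow hhigh
    simp only [hx]
    rw [hκ, iter_add]
    simp only [ha, hL]
    rw [blk_periodic f (p k) (k + 1) (m k) r i (by omega) hi]
  have hsubr : ((r1 - r0 : ℕ) : ℝ) = r1 - r0 := Nat.cast_sub hr01
  simp only [Finset.sum_const, Nat.card_Ico, nsmul_eq_mul] at h4
  rw [hsubr] at h4
  have c1 : (t (k + 1) : ℝ) < L k * r1 + L k := by exact_mod_cast a1'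
  have c2 : (L k : ℝ) * r0 ≤ t k + L k := by exact_mod_cast a0'
  have c3 : 8 * ((t k : ℝ) + L k) ≤ t (k + 1) := by exact_mod_cast htk
  have c4 : (0:ℝ) ≤ t k := Nat.cast_nonneg _
  have c5 : (t (k + 1) : ℝ) / 2 ≤ L k * r1 - L k * r0 := by
    have : (0:ℝ) ≤ L k := Nat.cast_nonneg _
    linarith
  have c6 : ε * ((t (k + 1) : ℝ) / 2) ≤ ε * (L k * r1 - L k * r0) :=
    mul_le_mul_of_nonneg_left c5 hε.le
  nlinarith

/-! ### Pairs of points with large average distance -/

theorem exists_pairs {X : Type} [MetricSpace X] [CompactSpace X] [MeasurableSpace X] [BorelSpace X]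
    (f : X → X) (hf : Continuous f) (hc : FullMeasureCenter f) (a b : X) (hab : a ≠ b) :
    ∃ c : ℝ, 0 < c ∧ ∀ n : ℕ, 1 ≤ n →
      ∃ x₁ x₂ : X, c * n ≤ ∑ i ∈ Finset.range n, dist (f^[i] x₁) (f^[i] x₂) := by
  obtain ⟨D, hD1, hD⟩ := exists_bound X
  set r := dist a b / 3 with hr
  have hr0 : 0 < r := by have := dist_pos.mpr hab; positivity
  obtain ⟨μ₁, hp1, hm1, hU⟩ := hc (Metric.ball a r) Metric.isOpen_ball ⟨a, Metric.mem_ball_self hr0⟩
  obtain ⟨μ₂, hp2, hm2, hV⟩ := hc (Metric.ball b r) Metric.isOpen_ball ⟨b, Metric.mem_ball_self hr0⟩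
  set μ := μ₁ + μ₂ with hμ
  have : IsFiniteMeasure μ := by rw [hμ]; infer_instance
  have hmp : MeasurePreserving f μ μ := by
    refine ⟨hf.measurable, ?_⟩
    rw [hμ, Measure.map_add _ _ hf.measurable, hm1.map_eq, hm2.map_eq]
  have hmpi : ∀ i : ℕ, MeasurePreserving (Prod.map (f^[i]) (f^[i])) (μ.prod μ) (μ.prod μ) :=
    fun i => (hmp.iterate i).prod (hmp.iterate i)
  have : SecondCountableTopology X := inferInstance
  have hme : Measurable (fun p : X × X => edist p.1 p.2) := measurable_edist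
  set κ := ∫⁻ p : X × X, edist p.1 p.2 ∂(μ.prod μ) with hκ
  have hκ0 : 0 < κ := by
    rw [hκ, lintegral_pos_iff_support hme]
    have hsub : (Metric.ball a r) ×ˢ (Metric.ball b r) ⊆
        Function.support (fun p : X × X => edist p.1 p.2) := by
      rintro ⟨x, y⟩ ⟨hx, hy⟩
      rw [Function.mem_support]
      intro h0
      have hxy : x = y := edist_eq_zero.mp h0
      subst hxy
      rw [Metric.mem_ball] at hx hy
      have := dist_triangle_left a b x
      rw [dist_comm] at hx
      have h3 : dist a b ≤ dist a x + dist x b := dist_triangle _ _ _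
      linarith [hr ▸ (by ring : dist a b / 3 * 3 = dist a b)]
    refine lt_of_lt_of_le ?_ (measure_mono hsub)
    rw [Measure.prod_prod]
    have hU' : μ (Metric.ball a r) ≠ 0 := by
      rw [hμ, Measure.add_apply]
      intro h0
      exact hU (add_eq_zero.mp h0).1
    have hV' : μ (Metric.ball b r) ≠ 0 := by
      rw [hμ, Measure.add_apply]
      intro h0
      exact hV (add_eq_zero.mp h0).2
    exact pos_iff_ne_zero.mpr (mul_ne_zero hU' hV')
  set M := (μ.prod μ) Set.univ with hM
  have hMfin : M ≠ ⊤ := measure_ne_top _ _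
  have hκfin : κ ≠ ⊤ := by
    have h1 : κ ≤ ∫⁻ _ : X × X, ENNReal.ofReal D ∂(μ.prod μ) := by
      apply lintegral_mono
      intro p
      show edist p.1 p.2 ≤ ENNReal.ofReal D
      rw [edist_dist]
      exact ENNReal.ofReal_le_ofReal (hD _ _)
    rw [lintegral_const] at h1
    exact ne_top_of_le_ne_top (ENNReal.mul_ne_top ENNReal.ofReal_ne_top hMfin) h1
  have hM0 : 0 < M := by
    rw [pos_iff_ne_zero]
    intro h0
    rw [hM, Measure.measure_univ_eq_zero] at h0
    rw [hκ, h0] at hκ0
    simp at hκ0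
  have hκr : 0 < κ.toReal := ENNReal.toReal_pos hκ0.ne' hκfin
  have hMr : 0 < M.toReal := ENNReal.toReal_pos hM0.ne' hMfin
  refine ⟨κ.toReal / (2 * M.toReal), by positivity, ?_⟩
  intro n hn
  by_contra hcon
  push Not at hcon
  set c := κ.toReal / (2 * M.toReal) with hcdef
  have hint : ∫⁻ p : X × X, ∑ i ∈ Finset.range n, edist (f^[i] p.1) (f^[i] p.2) ∂(μ.prod μ)
      = n * κ := by
    rw [lintegral_finsetSum]
    · have : ∀ i ∈ Finset.range n,
          ∫⁻ p : X × X, edist (f^[i] p.1) (f^[i] p.2) ∂(μ.prod μ) = κ := by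
        intro i _
        exact (hmpi i).lintegral_comp hme
      rw [Finset.sum_congr rfl this]
      simp
    · intro i _
      exact hme.comp (hmpi i).measurable
  have hle : ∫⁻ p : X × X, ∑ i ∈ Finset.range n, edist (f^[i] p.1) (f^[i] p.2) ∂(μ.prod μ)
      ≤ ENNReal.ofReal (c * n) * M := by
    rw [← lintegral_const]
    apply lintegral_mono
    intro p
    have h1 : ∑ i ∈ Finset.range n, edist (f^[i] p.1) (f^[i] p.2) =
        ENNReal.ofReal (∑ i ∈ Finset.range n, dist (f^[i] p.1) (f^[i] p.2)) := by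
      rw [ENNReal.ofReal_sum_of_nonneg (fun _ _ => dist_nonneg)]
      simp only [edist_dist]
    simp only
    rw [h1]
    exact ENNReal.ofReal_le_ofReal (hcon p.1 p.2).le
  rw [hint] at hle
  have h5 := ENNReal.toReal_mono (ENNReal.mul_ne_top ENNReal.ofReal_ne_top hMfin) hle
  rw [ENNReal.toReal_mul, ENNReal.toReal_mul, ENNReal.toReal_natCast,
    ENNReal.toReal_ofReal (by positivity)] at h5
  have hn0 : (0:ℝ) < n := by exact_mod_cast hn
  have h6 : c * n * M.toReal = n * κ.toReal / 2 := by
    rw [hcdef]; field_simp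
  rw [h6] at h5
  nlinarith

/-- **Theorem.** Let `f` be a continuous self-map of a compact metric space `X` with the average
shadowing property, or the asymptotic average shadowing property, or the almost specification
property, and suppose that the measure center of `f` is all of `X`. Then `f` is topologically mixing
or has positive topological entropy. More precisely the entropy is positive as soon as `X` has two
different points. -/
theorem result : ∀ (X : Type) [MetricSpace X] [CompactSpace X] [MeasurableSpace X] [BorelSpace X]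
    (f : X → X), Continuous f → FullMeasureCenter f →
    (ASP f ∨ AASP f ∨ AlmostSpecification f) →
    (TopologicallyMixing f ∨ 0 < Dynamics.coverEntropy f Set.univ) ∧
    ((∃ a b : X, a ≠ b) → 0 < Dynamics.coverEntropy f Set.univ) := by
  intro X _ _ _ _ f hf hc hP
  have hF : FBS f := by
    rcases hP with h | h | h
    · exact fbs_of_asp f h
    · exact fbs_of_aasp f h
    · exact fbs_of_spec f h
  have hpos : (∃ a b : X, a ≠ b) → 0 < Dynamics.coverEntropy f Set.univ := by
    rintro ⟨a, b, hab⟩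
    obtain ⟨c, hc0, hpairs⟩ := exists_pairs f hf hc a b hab
    exact entropy_of_FBS f hF c hc0 hpairs
  refine ⟨?_, hpos⟩
  by_cases h : ∃ a b : X, a ≠ b
  · exact Or.inr (hpos h)
  · left
    push Not at h
    intro U V _ _ ⟨u, hu⟩ ⟨v, hv⟩
    refine ⟨0, fun n _ => ⟨v, ⟨u, hu, h _ _⟩, hv⟩⟩

end Pool.Agent.Results.MP_090ff9_an.PositiveEntropy
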